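import Pool.Agent.Helper71.UQ.Goals

/-!
# MP_9b2a83_an, project UQ: packet GEOI (one scale in `ℓ_∞`)
-/

set_option autoImplicit false

namespace Pool.Agent.Helper30.UQ.PkGEOI

open Pool.Agent.Helper39.Net Pool.Agent.Helper71.UQ

/-- The rounded coordinates. -/
noncomputable def rd {n : ℕ} (r : ℝ) (x : Fin n → ℝ) (i : Fin n) : ℤ := round (x i / r)

theorem abs_rd {n : ℕ} {r : ℝ} (hr : 0 < r) (x : Fin n → ℝ) (i : Fin n) :
    |x i - r * (rd r x i : ℝ)| ≤ r / 2 := by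
  have h := abs_sub_round (x i / r)
  have e : x i - r * (rd r x i : ℝ) = r * (x i / r - round (x i / r)) := by
    unfold rd
    field_simp
  rw [e, abs_mul, abs_of_pos hr]
  nlinarith

/-- Half integer multiples of `r`. -/
noncomputable def em {n : ℕ} (r : ℝ) (A : Fin n → ℤ) (i : Fin n) : ℝ := r * (A i : ℝ) / 2

theorem dInf_em {k : ℕ} {r : ℝ} (hr : 0 < r) (A B : Fin (k + 1) → ℤ) (M : ℤ)
    (h : ∀ i, |A i - B i| ≤ M) : dInf (em r A) (em r B) ≤ r * M / 2 := by
  have hM : 0 ≤ M := (abs_nonneg _).trans (h 0)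
  have hM' : (0 : ℝ) ≤ M := by exact_mod_cast hM
  unfold dInf
  rw [pi_norm_le_iff_of_nonneg (by positivity)]
  intro i
  have h1 : ((|A i - B i| : ℤ) : ℝ) ≤ M := by exact_mod_cast h i
  have e : (em r A - em r B) i = r * ((A i - B i : ℤ) : ℝ) / 2 := by
    simp only [Pi.sub_apply, em]
    push_cast
    ring
  rw [e, Real.norm_eq_abs, abs_div, abs_mul, abs_of_pos hr, abs_of_pos (by norm_num : (0 : ℝ) < 2)]
  rw [Int.cast_abs] at h1
  gcongr

theorem dInf_rd {k : ℕ} {r : ℝ} (hr : 0 < r) (x : Fin (k + 1) → ℝ) :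
    dInf x (em r fun i => 2 * rd r x i) ≤ r / 2 := by
  unfold dInf
  rw [pi_norm_le_iff_of_nonneg (by positivity)]
  intro i
  have e : (x - em r fun i => 2 * rd r x i) i = x i - r * (rd r x i : ℝ) := by
    simp only [Pi.sub_apply, em]
    push_cast
    ring
  rw [e, Real.norm_eq_abs]
  exact abs_rd hr x i

theorem flr (a m : ℤ) (hm : 0 < m) : ∃ s : ℤ, m * s ≤ a ∧ a < m * s + m := by
  refine ⟨a / m, ?_, ?_⟩
  · have := Int.emod_nonneg a hm.ne'
    have h2 := Int.mul_ediv_add_emod a m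
    omega
  · have := Int.emod_lt_of_pos a hm
    have h2 := Int.mul_ediv_add_emod a m
    omega

/-- The multiples of `p` near `a`. -/
noncomputable def D1 (p a : ℤ) : Finset ℤ := Finset.Icc ((a - (512 * p + 1)) / p) ((a + (512 * p + 1)) / p)

theorem mem_D1 {p a s : ℤ} (hp : 1 ≤ p) (h : |s * p - a| ≤ 512 * p + 1) : s ∈ D1 p a := by
  rw [abs_le] at h
  unfold D1
  rw [Finset.mem_Icc]
  constructor
  · have h1 : (a - (512 * p + 1)) / p ≤ (s * p) / p :=
      Int.ediv_le_ediv (by omega) (by omega)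
    rwa [Int.mul_ediv_cancel _ (by omega : p ≠ 0)] at h1
  · rw [Int.le_ediv_iff_mul_le (by omega)]
    omega

theorem card_D1 {p a : ℤ} (hp : 1 ≤ p) : (D1 p a).card ≤ 2 ^ 11 := by
  unfold D1
  rw [Int.card_Icc]
  have h1 := Int.mul_ediv_add_emod (a - (512 * p + 1)) p
  have h2 := Int.emod_lt_of_pos (a - (512 * p + 1)) (by omega : 0 < p)
  have h3 := Int.mul_ediv_add_emod (a + (512 * p + 1)) p
  have h4 := Int.emod_nonneg (a + (512 * p + 1)) (by omega : p ≠ 0)
  set u := (a - (512 * p + 1)) / p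
  set v := (a + (512 * p + 1)) / p
  have h5 : p * (v - u) < p * 1027 := by
    have : p * (v - u) = p * v - p * u := by ring
    rw [this]
    omega
  have h6 : v - u < 1027 := lt_of_mul_lt_mul_left h5 (by omega)
  have : (2 : ℕ) ^ 11 = 2048 := by norm_num
  rw [this]
  omega

/-- The types. -/
abbrev Ty (k : ℕ) : Type := Fin (k + 1) × (ℤ × ℤ × (Fin k → ℤ) × (Fin k → Fin 3))

open Classical in
/-- The types of `x`. -/
noncomputable def Cx (k : ℕ) (p : ℤ) (r : ℝ) (x : Fin (k + 1) → ℝ) : Finset (Ty k) :=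
  Finset.univ.biUnion fun j : Fin (k + 1) =>
    (D1 p (rd r x j) ×ˢ (D1 p (rd r x j) ×ˢ
      ((Fintype.piFinset fun i : Fin k => D1 p (rd r x (j.succAbove i))) ×ˢ
        (Finset.univ : Finset (Fin k → Fin 3))))).image fun z => (j, z)

open Classical in
theorem card_Cx (k : ℕ) {p : ℤ} (hp : 1 ≤ p) (r : ℝ) (x : Fin (k + 1) → ℝ) :
    (Cx k p r x).card ≤ 2 ^ (25 * (k + 1)) := by
  unfold Cx
  refine (Finset.card_biUnion_le_card_mul _ _ (2 ^ 11 * (2 ^ 11 * ((2 ^ 11) ^ k * 3 ^ k))) ?_).trans ?_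
  · intro j _
    refine Finset.card_image_le.trans ?_
    rw [Finset.card_product, Finset.card_product, Finset.card_product, Fintype.card_piFinset]
    refine Nat.mul_le_mul (card_D1 hp) (Nat.mul_le_mul (card_D1 hp) (Nat.mul_le_mul ?_ ?_))
    · refine (Finset.prod_le_prod' (fun i _ => card_D1 hp)).trans ?_
      simp
    · simp
  · rw [Finset.card_univ, Fintype.card_fin]
    have h1 : k + 1 ≤ 2 ^ k := Nat.lt_two_pow_self
    have h2 : (3 : ℕ) ^ k ≤ 4 ^ k := Nat.pow_le_pow_left (by norm_num) _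
    have h3 : (4 : ℕ) ^ k = 2 ^ (2 * k) := by rw [pow_mul]; norm_num
    calc (k + 1) * (2 ^ 11 * (2 ^ 11 * ((2 ^ 11) ^ k * 3 ^ k)))
        ≤ 2 ^ k * (2 ^ 11 * (2 ^ 11 * ((2 ^ 11) ^ k * 2 ^ (2 * k)))) := by
          rw [← h3]
          gcongr
      _ = 2 ^ (k + (11 + (11 + (11 * k + 2 * k)))) := by
          rw [← pow_mul, ← pow_add, ← pow_add, ← pow_add, ← pow_add]
      _ ≤ _ := Nat.pow_le_pow_right (by norm_num) (by omega)

open Classical in
theorem mem_Cx {k : ℕ} {p : ℤ} (hp : 1 ≤ p) {r : ℝ} {x : Fin (k + 1) → ℝ} (j : Fin (k + 1))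
    (s1 s2 : ℤ) (γ : Fin k → ℤ) (κ : Fin k → Fin 3)
    (h1 : |s1 * p - rd r x j| ≤ 512 * p + 1) (h2 : |s2 * p - rd r x j| ≤ 512 * p + 1)
    (h3 : ∀ i, |γ i * p - rd r x (j.succAbove i)| ≤ 512 * p + 1) :
    ((j, s1, s2, γ, κ) : Ty k) ∈ Cx k p r x := by
  unfold Cx
  rw [Finset.mem_biUnion]
  refine ⟨j, Finset.mem_univ _, Finset.mem_image.2 ⟨(s1, s2, γ, κ), ?_, rfl⟩⟩
  rw [Finset.mem_product, Finset.mem_product, Finset.mem_product]
  exact ⟨mem_D1 hp h1, mem_D1 hp h2, Fintype.mem_piFinset.2 fun i => mem_D1 hp (h3 i),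
    Finset.mem_univ _⟩

/-- The integer coordinate. -/
def cf (κ : Fin 3) (a b : ℤ) : ℤ := if κ = 0 then a - b else if κ = 1 then a + b else 0

/-- Twice the coordinate of the hub. -/
def pc (κ : Fin 3) (t v g : ℤ) : ℤ :=
  if κ = 0 then 2 * t - v else if κ = 1 then v - 2 * t else 2 * g

/-- The lower coordinates. -/
noncomputable def low {k : ℕ} (r : ℝ) (θ : Ty k) (x : Fin (k + 1) → ℝ) (i : Fin k) : ℤ :=
  2 * cf (θ.2.2.2.2 i) (rd r x θ.1) (rd r x (θ.1.succAbove i))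

/-- The upper coordinates. -/
noncomputable def up {k : ℕ} (r : ℝ) (θ : Ty k) (x : Fin (k + 1) → ℝ) (i : Fin k) : ℤ :=
  2 * cf (θ.2.2.2.2 i) (rd r x θ.1) (rd r x (θ.1.succAbove i)) + 1

/-- Twice the hub, in integers. -/
def hb {k : ℕ} (p : ℤ) (θ : Ty k) (s : ℤ) (v : Fin k → ℤ) : Fin (k + 1) → ℤ :=
  θ.1.insertNth (α := fun _ => ℤ) (2 * (s * p))
    (fun i => pc (θ.2.2.2.2 i) (s * p) (v i) (θ.2.2.2.1 i * p))

theorem hb_same {k : ℕ} (p : ℤ) (θ : Ty k) (s : ℤ) (v : Fin k → ℤ) :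
    hb p θ s v θ.1 = 2 * (s * p) := by
  unfold hb
  rw [Fin.insertNth_apply_same]

theorem hb_succ {k : ℕ} (p : ℤ) (θ : Ty k) (s : ℤ) (v : Fin k → ℤ) (i : Fin k) :
    hb p θ s v (θ.1.succAbove i) = pc (θ.2.2.2.2 i) (s * p) (v i) (θ.2.2.2.1 i * p) := by
  unfold hb
  rw [Fin.insertNth_apply_succAbove]

theorem core (h2 : G_LEG) {k q : ℕ} {p : ℤ} (hp : 1 ≤ p) (hq : (2 : ℤ) ^ (q + 8) = 16384 * p)
    {r : ℝ} (hr : 0 < r) (x y : Fin (k + 1) → ℝ) (j : Fin (k + 1))
    (hj : ∀ i, |rd r y i - rd r x i| ≤ rd r y j - rd r x j)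
    (hl : 32 * p ≤ rd r y j - rd r x j) (hu : rd r y j - rd r x j ≤ 512 * p + 1) :
    ∃ θ : Ty k, θ ∈ Cx k p r x ∧ θ ∈ Cx k p r y ∧ RJ (q + 8) (low r θ x) (up r θ y) ∧
      ∀ v w : Fin k → ℤ, (∀ i, low r θ x i ≤ v i ∧ v i ≤ w i ∧ w i ≤ up r θ y i) →
        dInf x (em r (hb p θ θ.2.1 v)) + dInf (em r (hb p θ θ.2.1 v)) (em r (hb p θ θ.2.2.1 w)) +
          dInf (em r (hb p θ θ.2.2.1 w)) y ≤ dInf x y + 3 * r := by
  set X := rd r x with hX
  set Y := rd r y with hY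
  obtain ⟨Δ, hΔ⟩ : ∃ Δ, Δ = Y j - X j := ⟨_, rfl⟩
  rw [← hΔ] at hl hu
  have hj' : ∀ i, |Y i - X i| ≤ Δ := fun i => (hj i).trans hΔ.symm.le
  obtain ⟨s1, ha1, ha2⟩ := flr (4 * X j + Δ + 8 * p) (4 * p) (by omega)
  obtain ⟨s2, hb1, hb2⟩ := flr (4 * Y j - Δ - 4 * p) (4 * p) (by omega)
  have hg : ∀ i : Fin k, ∃ s : ℤ, 2 * p * s ≤ X (j.succAbove i) + Y (j.succAbove i) + p ∧
      X (j.succAbove i) + Y (j.succAbove i) + p < 2 * p * s + 2 * p := fun i =>
    flr _ (2 * p) (by omega)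
  choose γ hγ using hg
  have e1 : 4 * p * s1 = 4 * (s1 * p) := by ring
  have e2 : 4 * p * s2 = 4 * (s2 * p) := by ring
  rw [e1] at ha1 ha2
  rw [e2] at hb1 hb2
  have hγ' : ∀ i, |2 * (γ i * p) - (X (j.succAbove i) + Y (j.succAbove i))| ≤ p := by
    intro i
    have := hγ i
    have e : 2 * p * γ i = 2 * (γ i * p) := by ring
    rw [e] at this
    rw [abs_le]
    omega
  have hG := h2 p Δ (X j) (Y j) (s1 * p) (s2 * p) hp hl hΔ.symm (by omega) (by omega) (by omega)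
    (by omega)
  obtain ⟨hA, hB, hC, hD⟩ := hG
  obtain ⟨κ, hκ⟩ : ∃ κ : Fin k → Fin 3, ∀ i,
      (κ i = 0 → Δ ≤ 2 * (Y (j.succAbove i) - X (j.succAbove i))) ∧
      (κ i = 1 → Δ ≤ 2 * (X (j.succAbove i) - Y (j.succAbove i))) ∧
      (κ i = 2 → 2 * |Y (j.succAbove i) - X (j.succAbove i)| ≤ Δ) := by
    have : ∀ i : Fin k, ∃ κ : Fin 3,
        (κ = 0 → Δ ≤ 2 * (Y (j.succAbove i) - X (j.succAbove i))) ∧
        (κ = 1 → Δ ≤ 2 * (X (j.succAbove i) - Y (j.succAbove i))) ∧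
        (κ = 2 → 2 * |Y (j.succAbove i) - X (j.succAbove i)| ≤ Δ) := by
      intro i
      by_cases h0 : Δ ≤ 2 * (Y (j.succAbove i) - X (j.succAbove i))
      · exact ⟨0, fun _ => h0, fun h => absurd h (by decide), fun h => absurd h (by decide)⟩
      by_cases h1 : Δ ≤ 2 * (X (j.succAbove i) - Y (j.succAbove i))
      · exact ⟨1, fun h => absurd h (by decide), fun _ => h1, fun h => absurd h (by decide)⟩
      refine ⟨2, fun h => absurd h (by decide), fun h => absurd h (by decide), fun _ => ?_⟩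
      rcases abs_cases (Y (j.succAbove i) - X (j.succAbove i)) with h | h <;> omega
    choose κ hκ using this
    exact ⟨κ, hκ⟩
  have hnn : ∀ i, -Δ ≤ Y i - X i ∧ Y i - X i ≤ Δ := fun i => abs_le.1 (hj' i)
  refine ⟨(j, s1, s2, γ, κ), ?_, ?_, ⟨?_, ?_⟩, ?_⟩
  · refine mem_Cx hp j s1 s2 γ κ ?_ ?_ ?_
    · rw [← hX, abs_le]; omega
    · rw [← hX, abs_le]; omega
    · intro i
      have := hγ' i
      have h3 := hnn (j.succAbove i)
      rw [← hX, abs_le]
      rw [abs_le] at this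
      omega
  · refine mem_Cx hp j s1 s2 γ κ ?_ ?_ ?_
    · rw [← hY, abs_le]; omega
    · rw [← hY, abs_le]; omega
    · intro i
      have := hγ' i
      have h3 := hnn (j.succAbove i)
      rw [← hY, abs_le]
      rw [abs_le] at this
      omega
  · intro i
    have h3 := hnn (j.succAbove i)
    have h4 := hκ i
    simp only [low, up, cf, ← hX, ← hY]
    split_ifs <;> omega
  · have h5 : ∀ i ∈ (Finset.univ : Finset (Fin k)),
        up r (j, s1, s2, γ, κ) y i - low r (j, s1, s2, γ, κ) x i ≤ 512 * p + 2 := by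
      intro i _
      have h3 := hnn (j.succAbove i)
      obtain ⟨h40, h41, h42⟩ := hκ i
      simp only [low, up, cf, ← hX, ← hY]
      split_ifs with c1 c2
      · have := h40 c1; omega
      · have := h41 c2; omega
      · omega
    have h6 := Finset.sum_le_sum h5
    rw [Finset.sum_const, Finset.card_univ, Fintype.card_fin, nsmul_eq_mul] at h6
    rw [hq]
    have h7 : (0 : ℤ) ≤ k := by positivity
    nlinarith
  · intro v w hvw
    have hv : ∀ i, low r (j, s1, s2, γ, κ) x i ≤ v i ∧ v i ≤ w i ∧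
      w i ≤ up r (j, s1, s2, γ, κ) y i := hvw
    have d1 : dInf (em r fun i => 2 * X i) (em r (hb p (j, s1, s2, γ, κ) s1 v)) ≤
        r * ((2 * (s1 * p - X j) : ℤ) : ℝ) / 2 := by
      apply dInf_em hr
      rw [Fin.forall_iff_succAbove j]
      constructor
      · have := hb_same p (j, s1, s2, γ, κ) s1 v
        simp only at this
        rw [this, abs_le]
        omega
      · intro i
        have := hb_succ p (j, s1, s2, γ, κ) s1 v i
        simp only at this
        rw [this]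
        obtain ⟨v1, v2, v3⟩ := hv i
        obtain ⟨h40, h41, h42⟩ := hκ i
        simp only [low, up, cf, ← hX, ← hY] at v1 v3
        unfold pc
        split_ifs at v1 v3 ⊢ with c1 c2
        · exact (hB _ _ _ _ (hj' _) (h40 c1) v1 v2 v3).1
        · exact (hC _ _ _ _ (hj' _) (h41 c2) v1 v2 v3).1
        · refine (hD _ _ _ (h42 ?_) (hγ' i)).1
          omega
    have d2 : dInf (em r (hb p (j, s1, s2, γ, κ) s1 v)) (em r (hb p (j, s1, s2, γ, κ) s2 w)) ≤
        r * ((2 * (s2 * p - s1 * p) : ℤ) : ℝ) / 2 := by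
      apply dInf_em hr
      rw [Fin.forall_iff_succAbove j]
      constructor
      · have := hb_same p (j, s1, s2, γ, κ) s1 v
        have this2 := hb_same p (j, s1, s2, γ, κ) s2 w
        simp only at this this2
        rw [this, this2, abs_le]
        omega
      · intro i
        have := hb_succ p (j, s1, s2, γ, κ) s1 v i
        have this2 := hb_succ p (j, s1, s2, γ, κ) s2 w i
        simp only at this this2
        rw [this, this2]
        obtain ⟨v1, v2, v3⟩ := hv i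
        obtain ⟨h40, h41, h42⟩ := hκ i
        simp only [low, up, cf, ← hX, ← hY] at v1 v3
        unfold pc
        split_ifs at v1 v3 ⊢ with c1 c2
        · exact (hB _ _ _ _ (hj' _) (h40 c1) v1 v2 v3).2.1
        · exact (hC _ _ _ _ (hj' _) (h41 c2) v1 v2 v3).2.1
        · rw [sub_self, abs_zero]
          omega
    have d3 : dInf (em r (hb p (j, s1, s2, γ, κ) s2 w)) (em r fun i => 2 * Y i) ≤
        r * ((2 * (Y j - s2 * p) + 1 : ℤ) : ℝ) / 2 := by
      apply dInf_em hr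
      rw [Fin.forall_iff_succAbove j]
      constructor
      · have := hb_same p (j, s1, s2, γ, κ) s2 w
        simp only at this
        rw [this, abs_le]
        omega
      · intro i
        have := hb_succ p (j, s1, s2, γ, κ) s2 w i
        simp only at this
        rw [this]
        obtain ⟨v1, v2, v3⟩ := hv i
        obtain ⟨h40, h41, h42⟩ := hκ i
        simp only [low, up, cf, ← hX, ← hY] at v1 v3
        unfold pc
        split_ifs at v1 v3 ⊢ with c1 c2
        · exact (hB _ _ _ _ (hj' _) (h40 c1) v1 v2 v3).2.2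
        · exact (hC _ _ _ _ (hj' _) (h41 c2) v1 v2 v3).2.2
        · refine (hD _ _ _ (h42 ?_) (hγ' i)).2.trans (by omega)
          omega
    have d0 := dInf_rd hr x
    have d4 := dInf_rd hr y
    rw [← hX] at d0
    rw [← hY] at d4
    rw [dInf_symm] at d4
    have t1 := dInf_tri x (em r fun i => 2 * X i) (em r (hb p (j, s1, s2, γ, κ) s1 v))
    have t2 := dInf_tri (em r (hb p (j, s1, s2, γ, κ) s2 w)) (em r fun i => 2 * Y i) y
    have hxy : r * ((Y j : ℝ) - X j) ≤ dInf x y + r := by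
      have a1 := abs_le.1 (abs_rd hr x j)
      have a2 := abs_le.1 (abs_rd hr y j)
      have a3 : |x j - y j| ≤ dInf x y := norm_le_pi_norm (x - y) j
      rw [← hX] at a1
      rw [← hY] at a2
      rw [abs_le] at a3
      nlinarith
    push_cast at d1 d2 d3
    simp only
    nlinarith

theorem thm (h1 : G_TYP) (h2 : G_LEG) : G_GEOI := by
  intro k q T1 _ hq hN r hr Z
  obtain ⟨p, hp⟩ : ∃ p : ℤ, p = 2 ^ (q - 6) := ⟨_, rfl⟩
  have hp1 : 1 ≤ p := by rw [hp]; exact one_le_pow₀ (by norm_num)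
  have e64 : (2 : ℤ) ^ q = 64 * p := by
    rw [hp, show (64 : ℤ) = 2 ^ 6 by norm_num, ← pow_add]
    congr 1
    omega
  have e8 : (2 : ℤ) ^ (q + 8) = 16384 * p := by rw [pow_add, e64]; ring
  have e64' : (2 : ℝ) ^ q = 64 * p := by exact_mod_cast e64
  have e3' : (2 : ℝ) ^ (q + 3) = 512 * p := by rw [pow_add, e64']; ring
  have key : ∀ x y : Fin (k + 1) → ℝ, 2 ^ q * r ≤ dInf x y → dInf x y ≤ 2 ^ (q + 3) * r →
      ∀ j, (∀ i, |rd r y i - rd r x i| ≤ rd r y j - rd r x j) →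
      ∃ θ : Ty k, θ ∈ Cx k p r x ∧ θ ∈ Cx k p r y ∧ RJ (q + 8) (low r θ x) (up r θ y) ∧
      ∀ v w : Fin k → ℤ, (∀ i, low r θ x i ≤ v i ∧ v i ≤ w i ∧ w i ≤ up r θ y i) →
        dInf x (em r (hb p θ θ.2.1 v)) + dInf (em r (hb p θ θ.2.1 v)) (em r (hb p θ θ.2.2.1 w)) +
          dInf (em r (hb p θ θ.2.2.1 w)) y ≤ dInf x y + 3 * r := by
    intro x y hl hu j hj
    refine core h2 hp1 e8 hr x y j hj ?_ ?_
    · have hle : dInf x y ≤ r * (((rd r y j - rd r x j : ℤ) : ℝ) + 1) := by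
        have h0 : (0 : ℝ) ≤ ((rd r y j - rd r x j : ℤ) : ℝ) := by
          exact_mod_cast (abs_nonneg _).trans (hj j)
        unfold dInf
        rw [pi_norm_le_iff_of_nonneg (by positivity)]
        intro i
        have a1 := abs_le.1 (abs_rd hr x i)
        have a2 := abs_le.1 (abs_rd hr y i)
        have a3 := abs_le.1 (hj i)
        have a4 : (((-(rd r y j - rd r x j) : ℤ)) : ℝ) ≤ ((rd r y i - rd r x i : ℤ) : ℝ) := by
          exact_mod_cast a3.1
        have a5 : ((rd r y i - rd r x i : ℤ) : ℝ) ≤ ((rd r y j - rd r x j : ℤ) : ℝ) := by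
          exact_mod_cast a3.2
        push_cast at a4 a5 ⊢
        rw [Pi.sub_apply, Real.norm_eq_abs, abs_le]
        constructor <;> nlinarith
      rw [e64'] at hl
      have h3 : (64 : ℝ) * p ≤ ((rd r y j - rd r x j : ℤ) : ℝ) + 1 := by
        have : (64 * p : ℝ) * r ≤ (((rd r y j - rd r x j : ℤ) : ℝ) + 1) * r := by linarith
        exact le_of_mul_le_mul_right this hr
      have h4 : 64 * p ≤ (rd r y j - rd r x j) + 1 := by exact_mod_cast h3
      omega
    · have a1 := abs_le.1 (abs_rd hr x j)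
      have a2 := abs_le.1 (abs_rd hr y j)
      have a3 : |x j - y j| ≤ dInf x y := norm_le_pi_norm (x - y) j
      rw [abs_le] at a3
      rw [e3'] at hu
      have h3 : ((rd r y j - rd r x j : ℤ) : ℝ) ≤ 512 * p + 1 := by
        have : ((rd r y j - rd r x j : ℤ) : ℝ) * r ≤ (512 * p + 1) * r := by
          push_cast
          nlinarith
        exact le_of_mul_le_mul_right this hr
      exact_mod_cast h3
  obtain ⟨S, hS1, hS2⟩ := h1 k T1 (2 ^ (25 * (k + 1))) (RJ (q + 8)) hN (Fin (k + 1) → ℝ) (Ty k)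
    dInf dInf_symm (Cx k p r) (low r) (up r) (fun θ v => em r (hb p θ θ.2.1 v))
    (fun θ w => em r (hb p θ θ.2.2.1 w)) (3 * r)
    (fun x y => 2 ^ q * r ≤ dInf x y ∧ dInf x y ≤ 2 ^ (q + 3) * r)
    (fun x => card_Cx k hp1 r x) (by
      rintro x y ⟨hl, hu⟩
      obtain ⟨j, -, hj⟩ := Finset.exists_max_image (Finset.univ : Finset (Fin (k + 1)))
        (fun i => |rd r y i - rd r x i|) ⟨0, Finset.mem_univ _⟩
      rcases abs_cases (rd r y j - rd r x j) with ⟨hc, _⟩ | ⟨hc, _⟩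
      · obtain ⟨θ, t1, t2, t3, t4⟩ := key x y hl hu j (fun i => by
          rw [← hc]; exact hj i (Finset.mem_univ _))
        exact ⟨θ, t1, t2, Or.inl ⟨t3, t4⟩⟩
      · rw [dInf_symm] at hl hu
        obtain ⟨θ, t1, t2, t3, t4⟩ := key y x hl hu j (fun i => by
          have := hj i (Finset.mem_univ _)
          rw [hc] at this
          rw [abs_sub_comm]
          omega)
        exact ⟨θ, t2, t1, Or.inr ⟨t3, t4⟩⟩)
    Z
  exact ⟨S, hS1, fun x hx y hy hl hu => hS2 x hx y hy ⟨hl, hu⟩⟩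

end Pool.Agent.Helper30.UQ.PkGEOI
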